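import Pool.Agent.X109.KP.Main

set_option autoImplicit false

/-!
# The kernel problem can be answered negatively by a space and positively by its dual

`MP_ad4c49_an`, Q1. The space is a Johnson–Lindenstrauss space `X`: the closed linear span, in the
product of `ℓ∞(T)` (`T` the binary tree) and `ℓ₂(Γ)` (`Γ` the set of branches), of the vectors
`(e_t, 0)` and `(1_{A_g}, e_g)`, where `A_g ⊆ T` is the branch `g`.

* Negative for `X`: let `Y = {(x, b) ∈ X : b = 0}` and `ker T = Y`. For each `t` the functional
  `u ↦ (T u)_t` kills all `e_t`, and such functionals have square summable values at the vectors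
  `u_g = (1_{A_g}, e_g)`. As `T` is countable, some `u_g` is mapped to a vector with first component
  zero; such a vector of `X` is zero. So `u_g ∈ Y`, a contradiction.
* Positive for the dual `E`: `E` is the direct sum of a Hilbert space `j(H)` (`H = ℓ₂(Γ)`), and of
  the closed span `S` of the evaluations, `S` isomorphic to `ℓ₁`. Given a closed subspace `Z`, let
  `R` be the projection of `H` onto the orthogonal complement of the image of `Z` and let `f_n` be
  functionals vanishing on `Z` and norming the classes modulo `Z` of a dense sequence of `S`. Then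
  `Z` is the kernel of `x ↦ j (R (p x)) + ∑ 2⁻ⁿ f_n(x) δ_n`.
-/

namespace Pool.Agent.Results.MP_ad4c49_an.DualPositive

open Pool.Agent.X109.KP

/-- The normed space `X` answers the kernel problem positively: every closed linear subspace of
`X` is the kernel of a bounded linear operator from `X` to `X`. -/
def AnswersPositively (𝕜 X : Type) [RCLike 𝕜] [NormedAddCommGroup X] [NormedSpace 𝕜 X] : Prop :=
  ∀ Y : Submodule 𝕜 X, IsClosed (Y : Set X) →
    ∃ T : X →L[𝕜] X, LinearMap.ker (T : X →ₗ[𝕜] X) = Y

/-- The normed space `X` answers the kernel problem negatively: some closed linear subspace of `X`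
is not the kernel of any bounded linear operator from `X` to `X`. -/
def AnswersNegatively (𝕜 X : Type) [RCLike 𝕜] [NormedAddCommGroup X] [NormedSpace 𝕜 X] : Prop :=
  ∃ Y : Submodule 𝕜 X, IsClosed (Y : Set X) ∧
    ∀ T : X →L[𝕜] X, LinearMap.ker (T : X →ₗ[𝕜] X) ≠ Y

/-- Over the real and over the complex field there is a Banach space answering the kernel problem
negatively whose dual space answers it positively. -/
theorem result (𝕜 : Type) [RCLike 𝕜] :
    ∃ (X : Type) (_ : NormedAddCommGroup X) (_ : NormedSpace 𝕜 X),
      CompleteSpace X ∧ AnswersNegatively 𝕜 X ∧ AnswersPositively 𝕜 (StrongDual 𝕜 X) := by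
  refine ⟨X 𝕜, inferInstance, inferInstance, inferInstance, ?_, ?_⟩
  · refine ⟨LinearMap.ker (q 𝕜).toLinearMap, ?_, fun T hT => ?_⟩
    · exact isClosed_singleton.preimage (q 𝕜).continuous
    · refine negative 𝕜 T fun x => ?_
      have h := SetLike.ext_iff.1 hT x
      simpa [LinearMap.mem_ker] using h
  · intro Z hZ
    obtain ⟨T, hT⟩ := dual_positive 𝕜 Z hZ
    refine ⟨T, ?_⟩
    ext φ
    rw [LinearMap.mem_ker]
    exact hT φ

end Pool.Agent.Results.MP_ad4c49_an.DualPositive
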